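import Pool.Agent.Work.MP_df5cf0_gt.Hedge.Unic

/-!
A homogeneous arcwise connected curve, not a circle, with a group of homeomorphisms acting freely
whose orbits are closed totally disconnected sets such that every simple closed curve meets every
orbit; more strongly, two subcontinua whose union misses an orbit have connected intersection.
-/

open Pool.Agent.Work.MP_df5cf0_gt

namespace Pool.Agent.Results.MP_df5cf0_gt.Transversal

theorem result : ∃ (X : Type) (_ : MetricSpace X), CompactSpace X ∧ PathConnectedSpace X ∧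
    smallInductiveDimension X = 1 ∧ (∀ x y : X, ∃ h : X ≃ₜ X, h x = y) ∧ IsEmpty (X ≃ₜ Circle) ∧
    ∃ G : Subgroup (X ≃ₜ X), (∀ g ∈ G, ∀ x, g x = x → g = 1) ∧
      ∀ x : X, IsClosed {y | ∃ g ∈ G, g x = y} ∧ IsTotallyDisconnected {y | ∃ g ∈ G, g x = y} ∧
        (∀ f : Circle → X, Continuous f → Function.Injective f → ∃ g ∈ G, g x ∈ Set.range f) ∧
        ∀ A B : Set X, IsClosed A → IsClosed B → IsPreconnected A → IsPreconnected B →
          (∀ g ∈ G, g x ∉ A ∪ B) → IsPreconnected (A ∩ B) := by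
  refine ⟨XX, inferInstance, inferInstance, inferInstance, dim_eq_one, homogeneous, not_circle, GG,
    fun g hg x hx => GG_free hg hx, fun p => ?_⟩
  obtain ⟨x, rfl⟩ := mk_surj p
  rw [orbit_eq]
  refine ⟨orb_closed x, orb_td x, fun f hf hi => ?_,
    fun A B cA cB hA hB h => unicoherent cA cB hA hB x fun t ht => ?_⟩
  · obtain ⟨t, ht, h⟩ := meets hf hi x
    obtain ⟨g, hg, e⟩ := (orbit_eq x).ge ⟨t, ht, rfl⟩
    exact ⟨g, hg, e ▸ h⟩
  · obtain ⟨g, hg, e⟩ := (orbit_eq x).ge ⟨t, ht, rfl⟩
    exact e ▸ h g hg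

end Pool.Agent.Results.MP_df5cf0_gt.Transversal
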